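import Mathlib
import Pool.Agent.K1H51.PP.Small

/-!
# The Paley graph conjecture for every character, arbitrary sets and almost all shifts: norms near the optimal one

Let `χ` be a nontrivial character modulo a prime `p` and let `A`, `B` be ARBITRARY sets of residues. The exceptional set
`E` of the theorem depends only on `χ`, `A`, `B` (and `r`, `κ`). For ALL affine images `P = x + t A`, `Q = y + t B` with
`t ≠ 0` and `(x + y) / t ∉ E` and ALL weights `f`, `g` on `P`, `Q` one has `|∑ f(a) g(b) χ(a + b)| ≤ V ‖f‖ ‖g‖`, in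
particular `|S_χ(A', B')| ≤ V (|A'||B'|) ^ (1/2)` for ALL subsets `A' ⊆ P`, `B' ⊆ Q`, where (`m ≤ M` are the sizes of `A`
and `B` in some order)

* `|E| V ^ (2r) ≤ (2r + 1) ^ (2r) m M ^ r p + 2r (m M) ^ r √p` for every `V > 0` and `r ≥ 1`;
* `|E| ≤ ((2r + 1) ^ (2r) + 2r) p ^ (1 - 2rκ)` with `V = (M ^ (1/2) m ^ (1/(2r)) + (m M) ^ (1/2) p ^ (-1/(4r))) p ^ κ`;
* `|E| ≤ p ^ (1/2 + ε)` with `V = p ^ (-δ) (m M) ^ (1/2)`, `δ = δ(ε) > 0`, as soon as `m ≥ p ^ ε`: the inequality of the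
  conjecture holds for all subsets of relative density at least `p ^ (-δ/2)`, say, of all these images simultaneously;
* (`A = B = {0, …, N - 1}`, `N ^ (2r) ≤ p`) for all pairs of progressions `P = x + t n`, `Q = y + t n`, `0 ≤ n < N`, with
  `(x + y) / t ∉ E`: `V = 2 N ^ (1/2 + 1/(2r)) p ^ κ` and `|E| ≤ C p ^ (1 - 2rκ)`. So for short progressions almost all
  positions allow arbitrary subsets of size a little more than `N ^ (1/2)`;
* (small sets, `r` about `log p / (2 log N)`) for `ε > 0` there is `c > 0` such that for large `p`, `(log p) ^ (2 + ε) ≤ N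
  ≤ p ^ c` and `|A|, |B| ≤ N`: `|E| ≤ p ^ (1 - c)` with `V = N ^ (1 - c)`. So for almost all shifts there is a power saving
  already for sets with `(log p) ^ (2 + ε)` elements (the conjecture is about sets with `p ^ ε` elements).

The norm of such a matrix is at least about `M ^ (1/2)`, so the second bound is optimal up to the factor
`2 m ^ (1/(2r)) p ^ κ` if `m ^ (2r) ≤ p`.

For fixed sets `A'`, `B'` the moments of Davenport and Erdős give `p ^ (1/2 + ε)` exceptional shifts; the point is that all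
subsets (all weights) are treated simultaneously. The theorem `AllWeightsAffineImages` of the starting files does this with
an unspecified small power saving `p ^ (-δ)` in the norm and at most `p ^ (1 - c)` exceptional affine maps.

Proof: the `2r`-th power of the norm is at most the trace of `(T T*) ^ r`, `T = (χ (s + a + b))`, a sum over the closed
walks of length `2r` in the complete bipartite graph on `A`, `B`, with the labels `a + b` on the edges. If some label
occurs exactly once, the sum over `s` of the term of the walk is at most `2r √p` by Weil's bound. There are at most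
`(2r + 1) ^ (2r) m M ^ r` other walks: along such a walk at most `r` labels are new, and a label which is not new
determines the next vertex up to at most `2r` choices.
-/

set_option autoImplicit false

namespace Pool.Agent.Results.MP_f6e9a2_nt.AlmostAllShifts

open Finset

/-- for all weights on `P` and `Q` the bilinear form with the kernel `χ (a + b)` is at most `V ‖f‖ ‖g‖` -/
def Form {p : ℕ} (χ : DirichletCharacter ℂ p) (P Q : Finset (ZMod p)) (V : ℝ) : Prop :=
  ∀ f g : ZMod p → ℂ, ‖∑ a ∈ P, ∑ b ∈ Q, f a * g b * χ (a + b)‖ ≤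
    V * (√(∑ a ∈ P, ‖f a‖ ^ 2) * √(∑ b ∈ Q, ‖g b‖ ^ 2))

theorem result :
    -- the general inequality
    (∀ (p : ℕ) [Fact p.Prime] (χ : DirichletCharacter ℂ p), χ ≠ 1 → ∀ (A B : Finset (ZMod p)) (r : ℕ), 1 ≤ r →
      ∀ V : ℝ, 0 < V → ∃ E : Finset (ZMod p),
        (E.card : ℝ) * V ^ (2 * r) ≤
          (2 * (r : ℝ) + 1) ^ (2 * r) * (min (A.card : ℝ) B.card * max (A.card : ℝ) B.card ^ r) * p +
            2 * (r : ℝ) * ((A.card : ℝ) * B.card) ^ r * √(p : ℝ) ∧
        ∀ x y t : ZMod p, t ≠ 0 → (x + y) / t ∉ E →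
          Form χ (A.image fun a => x + t * a) (B.image fun b => y + t * b) V) ∧
    -- the norm for almost all shifts
    (∀ (p : ℕ) [Fact p.Prime] (χ : DirichletCharacter ℂ p), χ ≠ 1 → ∀ A B : Finset (ZMod p), A.Nonempty → B.Nonempty →
      ∀ r : ℕ, 1 ≤ r → ∀ κ : ℝ, ∃ E : Finset (ZMod p),
        (E.card : ℝ) ≤ ((2 * (r : ℝ) + 1) ^ (2 * r) + 2 * r) * (p : ℝ) ^ (1 - 2 * r * κ) ∧
        ∀ x y t : ZMod p, t ≠ 0 → (x + y) / t ∉ E →
          Form χ (A.image fun a => x + t * a) (B.image fun b => y + t * b)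
            ((√(max (A.card : ℝ) B.card) * min (A.card : ℝ) B.card ^ (1 / (2 * r) : ℝ) +
              √((A.card : ℝ) * B.card) * (p : ℝ) ^ (-(1 / (4 * r)) : ℝ)) * (p : ℝ) ^ κ)) ∧
    -- few exceptional shifts
    (∀ ε : ℝ, 0 < ε → ∃ δ : ℝ, 0 < δ ∧ ∃ p₀ : ℕ, ∀ (p : ℕ) [Fact p.Prime], p₀ ≤ p →
      ∀ χ : DirichletCharacter ℂ p, χ ≠ 1 → ∀ A B : Finset (ZMod p), (p : ℝ) ^ ε ≤ A.card → (p : ℝ) ^ ε ≤ B.card →
      ∃ E : Finset (ZMod p), (E.card : ℝ) ≤ (p : ℝ) ^ (1 / 2 + ε) ∧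
        ∀ x y t : ZMod p, t ≠ 0 → (x + y) / t ∉ E →
          Form χ (A.image fun a => x + t * a) (B.image fun b => y + t * b)
            ((p : ℝ) ^ (-δ) * √((A.card : ℝ) * B.card))) ∧
    -- progressions
    (∀ (p : ℕ) [Fact p.Prime] (χ : DirichletCharacter ℂ p), χ ≠ 1 → ∀ N : ℕ, 1 ≤ N → ∀ r : ℕ, 1 ≤ r →
      N ^ (2 * r) ≤ p → ∀ κ : ℝ, ∃ E : Finset (ZMod p),
        (E.card : ℝ) ≤ ((2 * (r : ℝ) + 1) ^ (2 * r) + 2 * r) * (p : ℝ) ^ (1 - 2 * r * κ) ∧
        ∀ x y t : ZMod p, t ≠ 0 → (x + y) / t ∉ E →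
          Form χ ((range N).image fun n : ℕ => x + t * (n : ZMod p))
            ((range N).image fun n : ℕ => y + t * (n : ZMod p))
            (2 * (N : ℝ) ^ (1 / 2 + 1 / (2 * r) : ℝ) * (p : ℝ) ^ κ)) ∧
    -- small sets
    (∀ ε : ℝ, 0 < ε → ∃ c : ℝ, 0 < c ∧ ∃ p₀ : ℕ, ∀ (p : ℕ) [Fact p.Prime], p₀ ≤ p →
      ∀ χ : DirichletCharacter ℂ p, χ ≠ 1 → ∀ (A B : Finset (ZMod p)) (N : ℝ),
      (Real.log p) ^ (2 + ε) ≤ N → N ≤ (p : ℝ) ^ c → (A.card : ℝ) ≤ N → (B.card : ℝ) ≤ N →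
      ∃ E : Finset (ZMod p), (E.card : ℝ) ≤ (p : ℝ) ^ (1 - c) ∧
        ∀ x y t : ZMod p, t ≠ 0 → (x + y) / t ∉ E →
          Form χ (A.image fun a => x + t * a) (B.image fun b => y + t * b) (N ^ (1 - c))) ∧
    -- weights give sets
    (∀ (p : ℕ) (χ : DirichletCharacter ℂ p) (P Q : Finset (ZMod p)) (V : ℝ), Form χ P Q V →
      ∀ A' B' : Finset (ZMod p), A' ⊆ P → B' ⊆ Q →
        ‖∑ a ∈ A', ∑ b ∈ B', χ (a + b)‖ ≤ V * √((A'.card : ℝ) * B'.card)) := by
  refine ⟨?_, ?_, ?_, ?_, ?_, ?_⟩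
  · intro p _ χ hχ A B r hr V hV
    exact Pool.Agent.K1H51.PP.main0 p χ hχ A B r hr V hV
  · intro p _ χ hχ A B hA hB r hr κ
    exact Pool.Agent.K1H51.PP.main1 p χ hχ A B hA hB r hr κ
  · intro ε hε
    exact Pool.Agent.K1H51.PP.main2 ε hε
  · intro p _ χ hχ N hN r hr hNp κ
    exact Pool.Agent.K1H51.PP.main3 p χ hχ N hN r hr hNp κ
  · intro ε hε
    exact Pool.Agent.K1H51.PP.main4 ε hε
  · intro p χ P Q V h A' B' hA hB
    exact Pool.Agent.K1H51.PP.Bd_sets χ P Q V h A' B' hA hB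

end Pool.Agent.Results.MP_f6e9a2_nt.AlmostAllShifts
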