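import Pool.Agent.K1H93.PG.Main

set_option autoImplicit false

/-!
# Double character sums over ALL pairs of sets in short progressions, modulo almost all primes

Notation: `N = ⌊Q ^ η⌋` with `0 < η < 1`. `Prog Q η x t` is the progression `x + t n`, `|n| ≤ N`, in `ZMod p`, and
`Bound Q η K L` says that for ALL `x`, `t` and ALL weights `f`, `g` on the two opposite progressions
`P = Prog Q η x t` and `P' = Prog Q η (-x) t` one has `|∑ f(a) g(b) K(a + b)| ≤ L ‖f‖ ‖g‖`; so by the first part of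
the theorem `|S_χ(A, B)| ≤ L (|A||B|)^(1/2)` for ALL `A ⊆ P`, `B ⊆ P'`.

* (large values) if `η (2 r + 1) + 2 < 4 r l` then there are at most `Q ^ (η (4 r + 1) - 4 r l + ε)` pairs `(p, χ)`,
  `3 Q ^ η < p ≤ Q`, `χ` a nontrivial character modulo `p`, for which the bound fails with `L = Q ^ l`;
* (all characters) for all primes `p ≤ Q` with at most `Q ^ (1 - δ)` exceptions, and ALL nontrivial characters
  modulo `p`, the bound holds with `L = Q ^ (η (1 - (1 - η) / (6 + 4 η)) + ε)`, that is `N ^ (5 / 6 + ...)` for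
  short progressions. So `S_χ(A, B)` has a power saving for all sets `A ⊆ P`, `B ⊆ P'` with
  `(|A||B|)^(1/2) ≥ L Q ^ ε`;
* (almost all characters) for all but `Q ^ (2 - δ)` pairs `(p, χ)` with `L = Q ^ (η (1 - (2 - η) / (8 + 4 η)) + ε)`,
  that is `N ^ (3 / 4 + ...)`;
* (the quadratic character) if `(4 r - 2) η ≤ k`, for all primes `p ≤ Q` with at most `Q ^ (1 - δ)` exceptions, with
  `L = Q ^ (η (1 - (r - 1) / (2 r k)) + ε)`; so for `N ≤ Q ^ (1 / (4 r - 2))` with `L = N ^ (1 / 2 + 1 / (2 r)) Q ^ ε`,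
  which for large `r` is near the best possible `N ^ (1 / 2)`.

For an individual prime `p` nothing is known for `N ≤ p ^ (1 / 4)`, even for `A = P`, `B = P'`, and the bounds for
subsets of longer progressions (Karatsuba, Friedlander–Iwaniec, Chang) need sizes of at least about `p ^ (4 / 9)`; the
earlier theorems for almost all primes (or characters) fix the two sets before the primes are chosen. (For `N` near
`Q ^ (1 / 2)` and above the classical bound with `L = p ^ (1 / 2)` is better.)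

Outline: if the bound fails then the sum of `χ` over the closed walks of length `2 (s + 1)` in the complete bipartite
graph on `[-N, N]²` is at least `Q ^ (2 (s + 1) l)`. The product of `a + b` over the odd steps and the one over the
even steps of a walk are integers `n`, `m` of size `(2 N) ^ (s + 1)`, each pair of them with few representations by
the divisor bound (if they are not zero). A large sieve for the pairs `(p, χ)` (duality, and the
Pólya–Vinogradov inequality for the nontrivial characters `χ ψ̄` modulo `p q`), and the large sieve for Jacobi symbols for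
the quadratic character, bound the number of exceptions.
-/

namespace Pool.Agent.Results.MP_f6e9a2_nt.ShortProgressions

open Finset

/-- the progression `x + t n`, `|n| ≤ ⌊Q ^ η⌋` -/
noncomputable def Prog {p : ℕ} (Q : ℕ) (η : ℝ) (x t : ZMod p) : Finset (ZMod p) :=
  (Icc (-(⌊(Q : ℝ) ^ η⌋₊ : ℤ)) (⌊(Q : ℝ) ^ η⌋₊ : ℤ)).image fun n : ℤ => x + t * (n : ZMod p)

/-- for all weights on the opposite progressions `x + t n` and `-x + t n` the bilinear form with the kernel `K (a + b)`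
is at most `L ‖f‖ ‖g‖` -/
def Bound {p : ℕ} (Q : ℕ) (η : ℝ) (K : ZMod p → ℂ) (L : ℝ) : Prop :=
  ∀ (x t : ZMod p) (f g : ZMod p → ℂ),
    ‖∑ a ∈ Prog Q η x t, ∑ b ∈ Prog Q η (-x) t, f a * g b * K (a + b)‖ ≤
      L * (√(∑ a ∈ Prog Q η x t, ‖f a‖ ^ 2) * √(∑ b ∈ Prog Q η (-x) t, ‖g b‖ ^ 2))

theorem bound_iff {p : ℕ} (Q : ℕ) (η : ℝ) (K : ZMod p → ℂ) (L : ℝ) :
    Bound Q η K L ↔ Pool.Agent.K1H93.PG.PLE Q η K L := Iff.rfl

theorem result :
    -- weights give sets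
    (∀ (p : ℕ) (Q : ℕ) (η : ℝ) (K : ZMod p → ℂ) (L : ℝ), Bound Q η K L → ∀ (x t : ZMod p) (A B : Finset (ZMod p)),
      A ⊆ Prog Q η x t → B ⊆ Prog Q η (-x) t →
        ‖∑ a ∈ A, ∑ b ∈ B, K (a + b)‖ ≤ L * √((A.card : ℝ) * B.card)) ∧
    -- large values
    (∀ (η l ε : ℝ) (r : ℕ), 0 < η → 0 < ε → 1 ≤ r → η * (2 * r + 1) + 2 < 4 * r * l → ∃ Q₀ : ℕ, ∀ Q : ℕ, Q₀ ≤ Q →
      ∀ S : Finset (Σ p : ℕ, DirichletCharacter ℂ p),
        (∀ i ∈ S, i.1.Prime ∧ 3 * (Q : ℝ) ^ η < i.1 ∧ i.1 ≤ Q ∧ i.2 ≠ 1 ∧ ¬ Bound Q η (fun z => i.2 z) ((Q : ℝ) ^ l)) →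
          (S.card : ℝ) ≤ (Q : ℝ) ^ (η * (4 * r + 1) - 4 * r * l + ε)) ∧
    -- all characters modulo almost all primes
    (∀ η ε : ℝ, 0 < η → η < 1 → 0 < ε → ∃ δ : ℝ, 0 < δ ∧ ∃ Q₀ : ℕ, ∀ Q : ℕ, Q₀ ≤ Q →
      ∃ E : Finset ℕ, (E.card : ℝ) ≤ (Q : ℝ) ^ (1 - δ) ∧
        ∀ p : ℕ, p.Prime → p ≤ Q → p ∉ E → ∀ χ : DirichletCharacter ℂ p, χ ≠ 1 →
          Bound Q η (fun z => χ z) ((Q : ℝ) ^ (η * (1 - (1 - η) / (6 + 4 * η)) + ε))) ∧
    -- almost all characters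
    (∀ η ε : ℝ, 0 < η → η < 1 → 0 < ε → ∃ δ : ℝ, 0 < δ ∧ ∃ Q₀ : ℕ, ∀ Q : ℕ, Q₀ ≤ Q →
      ∀ S : Finset (Σ p : ℕ, DirichletCharacter ℂ p),
        (∀ i ∈ S, i.1.Prime ∧ 3 * (Q : ℝ) ^ η < i.1 ∧ i.1 ≤ Q ∧ i.2 ≠ 1 ∧
          ¬ Bound Q η (fun z => i.2 z) ((Q : ℝ) ^ (η * (1 - (2 - η) / (8 + 4 * η)) + ε))) →
          (S.card : ℝ) ≤ (Q : ℝ) ^ (2 - δ)) ∧
    -- the quadratic character modulo almost all primes
    (∀ (η ε : ℝ) (r k : ℕ), 0 < η → η < 1 → 0 < ε → 1 ≤ r → 1 ≤ k → (4 * (r : ℝ) - 2) * η ≤ k →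
      ∃ δ : ℝ, 0 < δ ∧ ∃ Q₀ : ℕ, ∀ Q : ℕ, Q₀ ≤ Q →
      ∃ E : Finset ℕ, (E.card : ℝ) ≤ (Q : ℝ) ^ (1 - δ) ∧
        ∀ (p : ℕ) [Fact p.Prime], p ≠ 2 → p ≤ Q → p ∉ E →
          Bound Q η (fun z : ZMod p => ((quadraticChar (ZMod p) z : ℤ) : ℂ))
            ((Q : ℝ) ^ (η * (1 - ((r : ℝ) - 1) / (2 * r * k)) + ε))) := by
  refine ⟨?_, ?_, ?_, ?_, ?_⟩
  · intro p Q η K L h x t A B hA hB
    exact Pool.Agent.K1H93.PG.sets Q η K L ((bound_iff Q η K L).1 h) x t A B hA hB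
  · intro η l ε r h1 h2 h3 h4
    obtain ⟨Q₀, _, h⟩ := Pool.Agent.K1H93.PG.main0 η l ε r h1 h2 h3 h4
    exact ⟨Q₀, h⟩
  · exact Pool.Agent.K1H93.PG.main1
  · exact Pool.Agent.K1H93.PG.main3
  · exact Pool.Agent.K1H93.PG.main2

end Pool.Agent.Results.MP_f6e9a2_nt.ShortProgressions
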