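import Mathlib
import Pool.Agent.K1H93.QF.Gen

set_option autoImplicit false

/-!
# The Paley graph conjecture for almost all characters modulo every prime, for all pairs of sets which grow little when
a common set of small doubling is added (in particular for all pairs with a small sumset)

Let `S_χ(A, B)` be the sum of `χ (a + b)` over `a ∈ A`, `b ∈ B`.

For `ε > 0` and `K` there are `δ > 0` and `p₀` such that modulo EVERY prime `p ≥ p₀` all but at most `p ^ (1 - δ)`
characters `χ` satisfy `|S_χ(A, B)| ≤ p ^ (-δ) |A| |B|` for ALL sets `A`, `B` of residues for which there is a set `D`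
of at least `p ^ ε` residues with `|D + D| ≤ K |D|`, `|A + D| ≤ p ^ δ |A|` and `|B + D| ≤ p ^ δ |B|`; in particular
(`D = A`) for ALL sets `A`, `B` of at least `p ^ ε` residues with `|A + B| ≤ K |A|` and `|A + B| ≤ K |B|`.

The exceptional characters do not depend on the sets. (The earlier theorem `AlmostAllCharacters` of the starting files
fixes the two sets before the characters; `ProgressionInvariantPairs` treats every character, but only if the sums
`a + b` are spread over more than `p ^ (1 / 2 + ε)` elements.)

Proof: explicit bounds for the sets which grow little when a multiple of a fixed set `P` is added (`K1H93/PX`, by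
the mean over the characters and the shifts of traces of powers, and Plünnecke's inequality), the theorem of Freiman and
Ruzsa (library), and a long progression inside an iterated difference set of `D` (`K1H93/QF`).
-/

namespace Pool.Agent.Results.MP_f6e9a2_nt.SmoothedSets

open Finset
open scoped Pointwise

theorem result (ε K : ℝ) (hε : 0 < ε) :
    ∃ δ : ℝ, 0 < δ ∧ ∃ p₀ : ℕ, ∀ p : ℕ, p.Prime → p₀ ≤ p →
      ∃ E : Finset (DirichletCharacter ℂ p), (E.card : ℝ) ≤ (p : ℝ) ^ (1 - δ) ∧ ∀ χ ∉ E,
        (∀ D : Finset (ZMod p), (p : ℝ) ^ ε ≤ D.card → ((D + D).card : ℝ) ≤ K * D.card → ∀ A B : Finset (ZMod p),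
          ((A + D).card : ℝ) ≤ (p : ℝ) ^ δ * A.card → ((B + D).card : ℝ) ≤ (p : ℝ) ^ δ * B.card →
            ‖∑ a ∈ A, ∑ b ∈ B, χ (a + b)‖ ≤ (p : ℝ) ^ (-δ) * (A.card * B.card)) ∧
        ∀ A B : Finset (ZMod p), (p : ℝ) ^ ε ≤ A.card → (p : ℝ) ^ ε ≤ B.card →
          ((A + B).card : ℝ) ≤ K * A.card → ((A + B).card : ℝ) ≤ K * B.card →
            ‖∑ a ∈ A, ∑ b ∈ B, χ (a + b)‖ ≤ (p : ℝ) ^ (-δ) * (A.card * B.card) :=
  Pool.Agent.K1H93.QF.final ε K hε

end Pool.Agent.Results.MP_f6e9a2_nt.SmoothedSets
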