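import Mathlib
import Pool.Agent.K1H93.PY.Fin

set_option autoImplicit false

/-!
# The Paley graph conjecture for almost all characters modulo every prime, for all pairs of sets with multiplicative
structure: dense subsets of cosets of subgroups, and of unions of cosets

Let `S_χ(A, B)` be the sum of `χ (a + b)` over `a ∈ A`, `b ∈ B`; here `A`, `B` are sets of nonzero residues modulo `p`.

For `ε, η > 0` there are `τ > 0` and `p₀` such that modulo every prime `p ≥ p₀` all but at most `p ^ (1 - ε + η)`
characters satisfy `|S_χ(A, B)| ≤ p ^ (-τ) |A| |B|` for ALL subgroups `H` of the multiplicative group with at least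
`p ^ ε` elements and ALL sets `A`, `B` with `|A H| ≤ p ^ τ |A|` and `|B H| ≤ p ^ τ |B|`: for all subsets of density at
least `p ^ (-τ)` of two cosets of `H`, or of two unions of cosets of `H`.

The exceptional characters depend neither on the sets nor on the subgroup. The proof (`K1H93/PY`, where an explicit form
for sets of small multiplicative doubling and arbitrary weights is given): the trace of a power of the matrix
`χ (x + v / u)`, `u, v ∈ P P`, in the mean over `χ` and `x`; a large form at one `x` gives large forms at `|P|`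
places; Plünnecke's inequality in the multiplicative group.
-/

namespace Pool.Agent.Results.MP_f6e9a2_nt.SubgroupCosets

open Finset
open scoped Pointwise

theorem result (ε η : ℝ) (hε : 0 < ε) (hη : 0 < η) : ∃ τ : ℝ, 0 < τ ∧ ∃ p₀ : ℕ, ∀ p : ℕ, p.Prime → p₀ ≤ p →
    ∃ E : Finset (DirichletCharacter ℂ p), (E.card : ℝ) ≤ (p : ℝ) ^ (1 - ε + η) ∧
      ∀ χ ∉ E, ∀ H : Subgroup (ZMod p)ˣ, (p : ℝ) ^ ε ≤ Nat.card H → ∀ A B : Finset (ZMod p)ˣ,
        (((A : Set (ZMod p)ˣ) * (H : Set (ZMod p)ˣ)).ncard : ℝ) ≤ (p : ℝ) ^ τ * A.card →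
        (((B : Set (ZMod p)ˣ) * (H : Set (ZMod p)ˣ)).ncard : ℝ) ≤ (p : ℝ) ^ τ * B.card →
          ‖∑ a ∈ A, ∑ b ∈ B, χ ((a : ZMod p) + (b : ZMod p))‖ ≤ (p : ℝ) ^ (-τ) * (A.card * B.card) :=
  Pool.Agent.K1H93.PY.part2 ε η hε hη

end Pool.Agent.Results.MP_f6e9a2_nt.SubgroupCosets
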